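import Pool.Agent.D0H73.OP.Stm

/-!
Module AAF of project OP (helper73): the element `aa` as a functional, and its norm.

Author: helper6.
-/

set_option autoImplicit false

open Finset
open scoped BigOperators

namespace Pool.Agent.D0H6.OP

open Pool.Agent.D0H73.OP
open Pool.Agent.V1192.UOD (V)

noncomputable section

/-! ### The weights -/

theorem w_pos (p : ℕ) (hp : 0 < p) : ∀ k, 0 < w p k
  | 0 => by
      rw [w]
      exact one_pos
  | k + 1 => by
      rw [w]
      have h1 := w_pos p hp k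
      have h2 : (0 : ℝ) < p := by exact_mod_cast hp
      positivity

theorem w_succ_le (p : ℕ) (hp : 0 < p) : ∀ k, w p k ≤ 1 ∧ 2 * w p (k + 1) ≤ w p k
  | 0 => by
      have h2 : (1 : ℝ) ≤ p := by exact_mod_cast hp
      refine ⟨by rw [w], ?_⟩
      rw [show w p (0 + 1) = w p 0 ^ 2 / (1000 * p) from rfl, show w p 0 = 1 from rfl, one_pow,
        mul_one_div, div_le_one (by positivity)]
      linarith
  | k + 1 => by
      have h1 := w_succ_le p hp k
      have h2 : (1 : ℝ) ≤ p := by exact_mod_cast hp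
      have h3 : w p (k + 1) ≤ 1 := by
        have := w_pos p hp (k + 1)
        linarith [h1.1, h1.2]
      refine ⟨h3, ?_⟩
      have h4 := w_pos p hp (k + 1)
      rw [show w p (k + 1 + 1) = w p (k + 1) ^ 2 / (1000 * p) from rfl, mul_div_assoc',
        div_le_iff₀ (by positivity)]
      nlinarith

theorem sum_w_le (p : ℕ) (hp : 0 < p) (n : ℕ) : ∑ i ∈ range n, w p i ≤ 2 - 2 * w p n := by
  induction n with
  | zero =>
    rw [Finset.sum_range_zero, show w p 0 = 1 from rfl]
    norm_num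
  | succ n ih =>
    rw [Finset.sum_range_succ]
    have := (w_succ_le p hp n).2
    linarith

section

variable {p : ℕ} [Fact p.Prime] {N : ℕ → ℕ} {n : ℕ}

/-- the vector `a e_j` of block `i` -/
def ev (i : Fin n) (j : Fin (N i)) (a : ZMod p) : H p N n := Pi.single i (Pi.single j a)

theorem p_ge : (2 : ℝ) ≤ p := by
  have h := (Fact.out : p.Prime).two_le
  exact_mod_cast h

/-- the constant in `Ex` -/
theorem norm_cst (i : Fin n) (hN : ∀ i, 0 < N i) :
    ‖(1 / ((N i : ℂ) * ((p : ℂ) - 1)))‖ = 1 / ((N i : ℝ) * ((p : ℝ) - 1)) := by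
  have h2 := p_ge (p := p)
  have h1 : (1 / ((N i : ℂ) * ((p : ℂ) - 1))) = ((1 / ((N i : ℝ) * ((p : ℝ) - 1)) : ℝ) : ℂ) := by
    push_cast
    rfl
  have h3 : (0 : ℝ) < N i := by exact_mod_cast hN i
  rw [h1, Complex.norm_real, Real.norm_eq_abs, abs_of_pos]
  have h4 : (0 : ℝ) < (p : ℝ) - 1 := by linarith
  positivity

theorem card_erase : (((univ : Finset (ZMod p)).erase 0).card : ℝ) = (p : ℝ) - 1 := by
  have h1 : ((univ : Finset (ZMod p)).erase 0).card = p - 1 := by
    rw [Finset.card_erase_of_mem (Finset.mem_univ _), Finset.card_univ, ZMod.card]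
  have h2 := (Fact.out : p.Prime).one_le
  rw [h1, Nat.cast_sub h2, Nat.cast_one]

theorem norm_Ex_le (i : Fin n) (hN : ∀ i, 0 < N i) (F : H p N n → ℂ) :
    ‖Ex i F‖ ≤ (1 / ((N i : ℝ) * ((p : ℝ) - 1))) *
      ∑ j : Fin (N i), ∑ a ∈ (univ : Finset (ZMod p)).erase 0, ‖F (ev i j a)‖ := by
  unfold Ex
  rw [norm_mul, norm_cst i hN]
  have h2 := p_ge (p := p)
  have h3 : (0 : ℝ) < N i := by exact_mod_cast hN i
  have h4 : (0 : ℝ) < (p : ℝ) - 1 := by linarith
  refine mul_le_mul_of_nonneg_left ?_ (by positivity)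
  refine (norm_sum_le _ _).trans (Finset.sum_le_sum fun j _ => ?_)
  exact norm_sum_le _ _

theorem cst_mul (i : Fin n) (hN : ∀ i, 0 < N i) :
    (1 / ((N i : ℝ) * ((p : ℝ) - 1))) *
      ∑ _j : Fin (N i), ∑ _a ∈ (univ : Finset (ZMod p)).erase 0, (1 : ℝ) = 1 := by
  have h2 := p_ge (p := p)
  have h3 : (0 : ℝ) < N i := by exact_mod_cast hN i
  have h4 : (0 : ℝ) < (p : ℝ) - 1 := by linarith
  rw [Finset.sum_const, Finset.sum_const, nsmul_eq_mul, nsmul_eq_mul, mul_one, card_erase,
    Finset.card_univ, Fintype.card_fin]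
  field_simp

open Classical in
/-- `Ex` of the indicators -/
theorem sum_ind (i : Fin n) (F : H p N n → ℂ) :
    ∑ g, Ex i (fun h => if h = g then 1 else 0) * F g = Ex i F := by
  unfold Ex
  have h1 : ∀ g : H p N n, (1 / ((N i : ℂ) * ((p : ℂ) - 1)) *
      ∑ j : Fin (N i), ∑ a ∈ (univ : Finset (ZMod p)).erase 0,
        (if (Pi.single i (Pi.single j a) : H p N n) = g then (1 : ℂ) else 0)) * F g =
      1 / ((N i : ℂ) * ((p : ℂ) - 1)) *
      ∑ j : Fin (N i), ∑ a ∈ (univ : Finset (ZMod p)).erase 0,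
        ((if (Pi.single i (Pi.single j a) : H p N n) = g then (1 : ℂ) else 0) * F g) := by
    intro g
    rw [mul_assoc, Finset.sum_mul]
    congr 1
    refine Finset.sum_congr rfl fun j _ => ?_
    rw [Finset.sum_mul]
  refine (Finset.sum_congr rfl fun g _ => h1 g).trans ?_
  rw [← Finset.mul_sum, Finset.sum_comm]
  congr 1
  refine Finset.sum_congr rfl fun j _ => ?_
  rw [Finset.sum_comm]
  refine Finset.sum_congr rfl fun a _ => ?_
  rw [Finset.sum_eq_single (Pi.single i (Pi.single j a) : H p N n)]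
  · rw [if_pos rfl, one_mul]
  · intro g _ hg
    rw [if_neg (fun h => hg h.symm), zero_mul]
  · intro h
    exact absurd (Finset.mem_univ _) h

open Classical in
theorem sum_norm_ind (i : Fin n) (hN : ∀ i, 0 < N i) :
    ∑ g : H p N n, ‖Ex i (fun h : H p N n => if h = g then 1 else 0)‖ ≤ 1 := by
  have h2 := p_ge (p := p)
  have h3 : (0 : ℝ) < N i := by exact_mod_cast hN i
  have h4 : (0 : ℝ) < (p : ℝ) - 1 := by linarith
  have hc0 : 0 ≤ 1 / ((N i : ℝ) * ((p : ℝ) - 1)) := by positivity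
  refine (Finset.sum_le_sum fun g _ => norm_Ex_le i hN _).trans ?_
  rw [← Finset.mul_sum, Finset.sum_comm]
  refine le_trans (mul_le_mul_of_nonneg_left ?_ hc0) (cst_mul (p := p) i hN).le
  refine Finset.sum_le_sum fun j _ => ?_
  rw [Finset.sum_comm]
  refine Finset.sum_le_sum fun a _ => ?_
  rw [Finset.sum_eq_single (ev i j a : H p N n)]
  · rw [if_pos rfl, norm_one]
  · intro g _ hg
    rw [if_neg (fun h => hg h.symm), norm_zero]
  · intro h
    exact absurd (Finset.mem_univ _) h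

theorem norm_Ex_one (i : Fin n) (hN : ∀ i, 0 < N i) (F : H p N n → ℂ) (hF : ∀ g, ‖F g‖ ≤ 1) :
    ‖Ex i F‖ ≤ 1 := by
  have h2 := p_ge (p := p)
  have h3 : (0 : ℝ) < N i := by exact_mod_cast hN i
  have h4 : (0 : ℝ) < (p : ℝ) - 1 := by linarith
  have hc0 : 0 ≤ 1 / ((N i : ℝ) * ((p : ℝ) - 1)) := by positivity
  refine (norm_Ex_le i hN F).trans ?_
  refine le_trans (mul_le_mul_of_nonneg_left ?_ hc0) (cst_mul (p := p) i hN).le
  exact Finset.sum_le_sum fun j _ => Finset.sum_le_sum fun a _ => hF _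

/-- the conjugate of a character -/
theorem conj_chr (χ : H p N n → ℂ) (hm : ∀ g h, χ (g + h) = χ g * χ h) (h1 : ∀ g, ‖χ g‖ = 1)
    (g : H p N n) : (starRingEnd ℂ) (χ g) = χ (-g) := by
  have hne : ∀ g, χ g ≠ 0 := fun g h => by
    have := h1 g
    rw [h, norm_zero] at this
    exact zero_ne_one this
  have h0 : χ 0 = 1 := by
    have h := hm 0 0
    rw [add_zero] at h
    exact (mul_right_cancel₀ (hne 0) (by rw [one_mul]; exact h)).symm
  have h2 : χ g * χ (-g) = 1 := by rw [← hm, add_neg_cancel, h0]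
  have h3 : χ g * (starRingEnd ℂ) (χ g) = 1 := by
    rw [Complex.mul_conj, Complex.normSq_eq_norm_sq, h1]
    norm_num
  exact mul_left_cancel₀ (hne g) (h3.trans h2.symm)

theorem Ex_real (i : Fin n) (χ : H p N n → ℂ) (hm : ∀ g h, χ (g + h) = χ g * χ h)
    (h1 : ∀ g, ‖χ g‖ = 1) : ∃ r : ℝ, Ex i χ = (r : ℂ) := by
  rw [← Complex.conj_eq_iff_real]
  unfold Ex
  rw [map_mul, map_sum]
  have hc : (starRingEnd ℂ) (1 / ((N i : ℂ) * ((p : ℂ) - 1))) =
      1 / ((N i : ℂ) * ((p : ℂ) - 1)) := by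
    simp
  rw [hc]
  congr 1
  refine Finset.sum_congr rfl fun j _ => ?_
  rw [map_sum]
  refine Finset.sum_nbij' (fun a => -a) (fun a => -a) ?_ ?_ ?_ ?_ ?_
  · intro a ha
    rw [Finset.mem_erase] at ha ⊢
    exact ⟨neg_ne_zero.mpr ha.1, Finset.mem_univ _⟩
  · intro a ha
    rw [Finset.mem_erase] at ha ⊢
    exact ⟨neg_ne_zero.mpr ha.1, Finset.mem_univ _⟩
  · intro a _
    exact neg_neg a
  · intro a _
    exact neg_neg a
  · intro a _
    rw [conj_chr χ hm h1]
    congr 1
    rw [← Pi.single_neg, ← Pi.single_neg]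

end

/-- Module AAF. -/
theorem t_AAF : S_AAF := by
  intro p _ N n hN
  classical
  have hp : 0 < p := (Fact.out : p.Prime).pos
  refine ⟨fun F => ?_, ?_, fun i F hF => norm_Ex_one i hN F hF, fun i χ hm h1 => Ex_real i χ hm h1⟩
  · unfold ap aa
    have h1 : ∀ g : H p N n, (∑ i : Fin n, (w p i : ℂ) *
        Ex i (fun h : H p N n => if h = g then 1 else 0)) * F g =
        ∑ i : Fin n, (w p i : ℂ) * (Ex i (fun h : H p N n => if h = g then 1 else 0) * F g) := by
      intro g
      rw [Finset.sum_mul]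
      refine Finset.sum_congr rfl fun i _ => ?_
      ring
    refine (Finset.sum_congr rfl fun g _ => ?_).trans ((Finset.sum_congr rfl fun g _ =>
      h1 g).trans ?_)
    · congr!
    · rw [Finset.sum_comm]
      refine Finset.sum_congr rfl fun i _ => ?_
      rw [← Finset.mul_sum]
      congr 1
      convert sum_ind i F
  · have h1 : ∀ g : H p N n, ‖(aa g : ℂ)‖ ≤ ∑ i : Fin n, w p i *
        ‖Ex i (fun h : H p N n => if h = g then 1 else 0)‖ := by
      intro g
      unfold aa
      refine (norm_sum_le _ _).trans (Finset.sum_le_sum fun i _ => le_of_eq ?_)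
      rw [norm_mul, Complex.norm_real, Real.norm_eq_abs, abs_of_pos (w_pos p hp i)]
    refine (Finset.sum_le_sum fun g _ => h1 g).trans ?_
    rw [Finset.sum_comm]
    calc ∑ i : Fin n, ∑ g : H p N n, w p i *
          ‖Ex i (fun h : H p N n => if h = g then 1 else 0)‖ ≤ ∑ i : Fin n, w p i := by
          refine Finset.sum_le_sum fun i _ => ?_
          rw [← Finset.mul_sum]
          have h2 : ∑ g : H p N n, ‖Ex i (fun h : H p N n => if h = g then 1 else 0)‖ ≤ 1 := by
            convert sum_norm_ind i hN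
          have h3 := w_pos p hp i
          nlinarith
      _ = ∑ i ∈ range n, w p i := Fin.sum_univ_eq_sum_range (fun i => w p i) n
      _ ≤ 2 - 2 * w p n := sum_w_le p hp n
      _ ≤ 2 := by
          have := w_pos p hp n
          linarith

end

end Pool.Agent.D0H6.OP
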